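import Pool.Agent.N247.CV.DerC

/-!
# Project CV (helper162), file DER, part a (helper247): derivations which kill a function that
vanishes at a place preserve the order at this place
-/

set_option autoImplicit false

open FF Polynomial Pool.Agent.W603.LV Pool.Agent.N162.CV

namespace Pool.Agent.N247.CV

section

variable {Ω E : Type} [Field Ω] [Algebra ℂ Ω] [Field E] [Algebra ℂ E] [Algebra Ω E]
  {D : Derivation ℂ Ω Ω} {δ : Derivation ℂ E E}

theorem ge_pt {v : Place Ω E} {t : E} (ht : 0 < v.ord t) (p : Polynomial Ω) : Ge v 0 (aeval t p) :=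
  ge_aeval v (Or.inr ht.le) p

theorem ge_dpt (hδD : ∀ a, δ (algebraMap Ω E a) = algebraMap Ω E (D a)) {v : Place Ω E} {t : E}
    (ht : 0 < v.ord t) (hδ : δ t = 0) (p : Polynomial Ω) : Ge v 0 (δ (aeval t p)) := by
  induction p using Polynomial.induction_on' with
  | add p q hp hq =>
    rw [map_add, map_add]
    exact hp.add hq
  | monomial n a =>
    rw [aeval_monomial, δ.leibniz, δ.leibniz_pow, hδ, hδD, smul_zero, smul_zero, smul_zero,
      zero_add, smul_eq_mul]
    have h1 : Ge v 0 t := Or.inr ht.le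
    simpa using (h1.pow n).mul (Ge.const (P := v) (D a))

theorem ge_pt_sub {v : Place Ω E} {t : E} (ht : 0 < v.ord t) (p : Polynomial Ω) :
    Ge v 1 (aeval t p - algebraMap Ω E (p.coeff 0)) := by
  have h : aeval t p - algebraMap Ω E (p.coeff 0) = t * aeval t p.divX := by
    conv_lhs => rw [← X_mul_divX_add p]
    rw [map_add, map_mul, aeval_X, aeval_C]
    simp
  rw [h]
  have h1 : Ge v 1 t := Or.inr ht
  simpa using h1.mul (ge_pt ht p.divX)

theorem ord_pt {v : Place Ω E} {t : E} (ht : 0 < v.ord t) (p : Polynomial Ω) (hp : p.coeff 0 ≠ 0) :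
    aeval t p ≠ 0 ∧ v.ord (aeval t p) = 0 := by
  have h1 := ge_pt_sub ht p
  have hc : algebraMap Ω E (p.coeff 0) ≠ 0 := fun h => hp ((map_eq_zero _).1 h)
  have hco : v.ord (algebraMap Ω E (p.coeff 0)) = 0 := v.ord_const hp
  rcases h1 with h1 | h1
  · rw [sub_eq_zero.1 h1]
    exact ⟨hc, hco⟩
  · have h0 : aeval t p - algebraMap Ω E (p.coeff 0) ≠ 0 := by
      intro h
      rw [h, v.ord_zero] at h1
      omega
    have := v.ord_add_eq hc h0 (by omega)
    rw [add_sub_cancel] at this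
    exact ⟨this.1, this.2.trans hco⟩

/-- an element of `Ω(t)` which is regular at a zero of `t` -/
theorem rep_ {v : Place Ω E} {t : E} (ht : 0 < v.ord t) (a : E)
    (ha : a ∈ IntermediateField.adjoin Ω {t}) (hv : Ge v 0 a) :
    ∃ p q : Polynomial Ω, q.coeff 0 ≠ 0 ∧ a = aeval t p / aeval t q := by
  have ht0 : t ≠ 0 := by
    rintro rfl
    rw [v.ord_zero] at ht; omega
  rw [IntermediateField.mem_adjoin_simple_iff] at ha
  obtain ⟨r, s, hrs⟩ := ha
  by_cases ha0 : a = 0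
  · exact ⟨0, 1, by simp, by simp [ha0]⟩
  have hr : r ≠ 0 := by
    rintro rfl
    rw [map_zero, zero_div] at hrs
    exact ha0 hrs
  have hs : s ≠ 0 := by
    rintro rfl
    rw [map_zero, div_zero] at hrs
    exact ha0 hrs
  obtain ⟨r', er, hr'⟩ := exists_eq_pow_rootMultiplicity_mul_and_not_dvd r hr 0
  obtain ⟨s', es, hs'⟩ := exists_eq_pow_rootMultiplicity_mul_and_not_dvd s hs 0
  rw [C_0, sub_zero, X_dvd_iff] at hr' hs'
  rw [C_0, sub_zero] at er es
  obtain ⟨i, hi⟩ : ∃ i, i = r.rootMultiplicity 0 := ⟨_, rfl⟩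
  obtain ⟨j, hj⟩ : ∃ j, j = s.rootMultiplicity 0 := ⟨_, rfl⟩
  rw [← hi] at er
  rw [← hj] at es
  obtain ⟨pr0, pro⟩ := ord_pt ht r' hr'
  obtain ⟨ps0, pso⟩ := ord_pt ht s' hs'
  have e1 : aeval t r = t ^ i * aeval t r' := by
    rw [er, map_mul, map_pow, aeval_X]
  have e2 : aeval t s = t ^ j * aeval t s' := by
    rw [es, map_mul, map_pow, aeval_X]
  have hti := pow_ne_zero i ht0
  have htj := pow_ne_zero j ht0
  have hij : j ≤ i := by
    have h1 := hv.resolve_left ha0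
    rw [hrs, e1, e2, v.ord_div (mul_ne_zero hti pr0) (mul_ne_zero htj ps0), v.ord_mul hti pr0,
      v.ord_mul htj ps0, v.ord_pow, v.ord_pow, pro, pso] at h1
    have h2 : (j : ℤ) * v.ord t ≤ i * v.ord t := by linarith
    have h3 := le_of_mul_le_mul_right h2 ht
    exact_mod_cast h3
  obtain ⟨m, rfl⟩ := Nat.exists_eq_add_of_le hij
  refine ⟨X ^ m * r', s', hs', ?_⟩
  rw [hrs, e1, e2, map_mul, map_pow, aeval_X, pow_add]
  field_simp

theorem ge_dpq (hδD : ∀ a, δ (algebraMap Ω E a) = algebraMap Ω E (D a)) {v : Place Ω E} {t : E}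
    (ht : 0 < v.ord t) (hδ : δ t = 0) (a : E)
    (ha : a ∈ IntermediateField.adjoin Ω {t}) (hv : Ge v 0 a) : Ge v 0 (δ a) := by
  obtain ⟨p, q, hq, rfl⟩ := rep_ ht a ha hv
  obtain ⟨q0, qo⟩ := ord_pt ht q hq
  have e : δ (aeval t p / aeval t q) =
      (aeval t q * δ (aeval t p) - aeval t p * δ (aeval t q)) * ((aeval t q)⁻¹ * (aeval t q)⁻¹) := by
    rw [δ.leibniz_div, smul_eq_mul, smul_eq_mul, smul_eq_mul]
    ring
  rw [e]
  have h1 : Ge v 0 (aeval t q)⁻¹ := Or.inr (by rw [v.ord_inv, qo]; simp)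
  have h2 := (ge_pt ht q).mul (ge_dpt hδD ht hδ p)
  have h3 := (ge_pt ht p).mul (ge_dpt hδD ht hδ q)
  simpa using (h2.sub h3).mul (h1.mul h1)

end

section

variable {Ω E : Type} [Field Ω] [Algebra ℂ Ω] [Field E] [Algebra ℂ E] [Algebra Ω E]
  [IsScalarTower ℂ Ω E] [IsAlgClosed Ω] [CharZero Ω] [IsFF Ω E]
  {D : Derivation ℂ Ω Ω} {δ : Derivation ℂ E E}

omit [Algebra ℂ Ω] [Algebra ℂ E] [IsScalarTower ℂ Ω E] [IsAlgClosed Ω] [CharZero Ω]
  [IsFF Ω E] in
theorem ge_of_bound {v : Place Ω E} (f : E) : Ge v (-|v.ord f|) f :=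
  Or.inr (neg_abs_le _)

/-- the poles of the derivatives are bounded -/
theorem step1 (h : StLB) (hδD : ∀ a, δ (algebraMap Ω E a) = algebraMap Ω E (D a))
    {v : Place Ω E} {t : E} (ht : 0 < v.ord t) (hδ : δ t = 0) :
    ∃ N : ℕ, ∀ g : E, Ge v 0 g → Ge v (-N) (δ g) := by
  classical
  have htr : Transcendental Ω t := v.transcendental_of_ord_ne ht.ne'
  obtain ⟨n, b, hb, hbas⟩ := h Ω E t htr
  set N : ℕ := ∑ i, (|v.ord (δ (b i))|).toNat with hN
  have hNi : ∀ i, Ge v (-(N : ℤ)) (δ (b i)) := by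
    intro i
    refine Ge.mono ?_ (ge_of_bound (v := v) (δ (b i)))
    have h1 := Finset.single_le_sum (f := fun i => (|v.ord (δ (b i))|).toNat)
      (fun _ _ => Nat.zero_le _) (Finset.mem_univ i)
    have h2 : (|v.ord (δ (b i))| : ℤ) ≤ (|v.ord (δ (b i))|).toNat := Int.self_le_toNat _
    have h3 : ((|v.ord (δ (b i))|).toNat : ℤ) ≤ N := by exact_mod_cast h1
    omega
  have hN0 : -(N : ℤ) ≤ 0 := by omega
  have key : ∀ g : E, (∀ w : Place Ω E, 0 < w.ord t → Ge w 0 g) → Ge v (-(N : ℤ)) (δ g) := by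
    intro g hg
    obtain ⟨a, ha, e⟩ := hbas g hg
    rw [e, map_sum]
    refine Ge.sum _ _ fun i _ => ?_
    rw [δ.leibniz, smul_eq_mul, smul_eq_mul]
    refine Ge.add ?_ ?_
    · simpa using (ha i v ht).mul (hNi i)
    · have h1 := (hb i v ht).mul (ge_dpq hδD ht hδ _ (a i).2 (ha i v ht))
      exact h1.mono (by simpa using hN0)
  refine ⟨N, fun g hg => ?_⟩
  -- the other zeros of `t`
  have hfin : {w : Place Ω E | w.ord t ≠ 0}.Finite := finite_support t
  set S : Finset (Place Ω E) := hfin.toFinset.erase v with hS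
  have hvS : v ∉ S := Finset.notMem_erase v _
  have hSm : ∀ w : Place Ω E, 0 < w.ord t → w = v ∨ w ∈ S := by
    intro w hw
    by_cases hwv : w = v
    · exact Or.inl hwv
    · right
      rw [hS, Finset.mem_erase]
      exact ⟨hwv, hfin.mem_toFinset.2 hw.ne'⟩
  obtain ⟨L, hL1, hL⟩ : ∃ L : ℤ, 1 ≤ L ∧ ∀ w ∈ S, 0 ≤ L + -|w.ord g| := by
    refine ⟨1 + ∑ w ∈ S, |w.ord g|, ?_, ?_⟩
    · have : 0 ≤ ∑ w ∈ S, |w.ord g| := Finset.sum_nonneg fun _ _ => abs_nonneg _
      omega
    · intro w hw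
      have := Finset.single_le_sum (f := fun w : Place Ω E => |w.ord g|)
        (fun _ _ => abs_nonneg _) hw
      omega
  obtain ⟨y, hy1, hy2⟩ := Pool.Agent.W619.PQ.approx_one S v hvS 1 L
  have hy1' : Ge v 1 (y - 1) := hy1.mono hL1
  have hyv : y ≠ 0 ∧ v.ord y = 0 := by
    rcases hy1' with h1 | h1
    · rw [sub_eq_zero.1 h1]
      exact ⟨one_ne_zero, v.ord_one⟩
    · have h0 : y - 1 ≠ 0 := by
        intro h
        rw [h, v.ord_zero] at h1
        omega
      have := v.ord_add_eq one_ne_zero h0 (by rw [v.ord_one]; omega)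
      rw [add_sub_cancel, v.ord_one] at this
      exact this
  have hyr : Ge v 0 y := Or.inr hyv.2.ge
  have k1 := key y (by
    intro w hw
    rcases hSm w hw with rfl | hwS
    · exact hyr
    · exact (hy2 w hwS).mono (by omega))
  have k2 := key (g * y) (by
    intro w hw
    rcases hSm w hw with rfl | hwS
    · have := hg.mul hyr
      simpa using this
    · have := (ge_of_bound (v := w) g).mul (hy2 w hwS)
      refine this.mono ?_
      have := hL w hwS
      omega)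
  have e : δ g = (δ (g * y) - g * δ y) * y⁻¹ := by
    rw [δ.leibniz, smul_eq_mul, smul_eq_mul]
    have := hyv.1
    field_simp
    ring
  rw [e]
  have h5 : Ge v 0 y⁻¹ := Or.inr (by rw [v.ord_inv, hyv.2]; simp)
  have h6 : Ge v (-(N : ℤ)) (g * δ y) := by simpa using hg.mul k1
  simpa using (k2.sub h6).mul h5

omit [Algebra ℂ Ω] [IsAlgClosed Ω] [IsFF Ω E] [IsScalarTower ℂ Ω E] in
/-- the derivative of a local parameter -/
theorem ge_ds {v : Place Ω E} {t : E} (ht : 0 < v.ord t) (hδ : δ t = 0) {s : E}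
    (hs : v.ord s = 1) {N : ℤ} (h : ∀ g : E, Ge v 0 g → Ge v (-N) (δ g)) :
    Ge v (1 - N) (δ s) := by
  have ht0 : t ≠ 0 := by
    rintro rfl
    rw [v.ord_zero] at ht; omega
  have hs0 : s ≠ 0 := by
    rintro rfl
    rw [v.ord_zero] at hs; omega
  obtain ⟨r, hr⟩ := Int.eq_ofNat_of_zero_le ht.le
  have hr1 : 0 < r := by
    rw [hr] at ht
    exact_mod_cast ht
  have hsr : s ^ r ≠ 0 := pow_ne_zero _ hs0
  have hwo : v.ord (s ^ r / t) = 0 := by
    rw [v.ord_div hsr ht0, v.ord_pow, hs, hr]; ring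
  have hw := h (s ^ r / t) (Or.inr hwo.ge)
  have e1 : s ^ r = t * (s ^ r / t) := by field_simp
  have e2 : (r : E) * s ^ (r - 1) * δ s = t * δ (s ^ r / t) := by
    have h1 := congrArg δ e1
    rw [δ.leibniz, hδ, smul_zero, add_zero, smul_eq_mul, δ.leibniz_pow] at h1
    rw [← h1, nsmul_eq_mul, smul_eq_mul]
    ring
  have hrE : (r : E) ≠ 0 := by
    intro h
    have h1 : algebraMap Ω E (r : Ω) = 0 := by rw [map_natCast]; exact h
    have h2 := (map_eq_zero (algebraMap Ω E)).1 h1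
    have h3 : r = 0 := by exact_mod_cast h2
    omega
  have hro : v.ord (r : E) = 0 := by
    have h1 : algebraMap Ω E (r : Ω) = (r : E) := by rw [map_natCast]
    rw [← h1]
    apply v.ord_const
    intro h
    have h3 : r = 0 := by exact_mod_cast h
    omega
  have hsr1 : s ^ (r - 1) ≠ 0 := pow_ne_zero _ hs0
  have h3 : Ge v (r - N) ((r : E) * s ^ (r - 1) * δ s) := by
    rw [e2]
    have h4 : Ge v (r : ℤ) t := Or.inr hr.ge
    exact (h4.mul hw).mono (by omega)
  refine Ge.of_mul' (h := (r : E) * s ^ (r - 1)) (m := (r : ℤ) - 1) (mul_ne_zero hrE hsr1) ?_ ?_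
  · rw [v.ord_mul hrE hsr1, hro, v.ord_pow, hs]
    push_cast [Nat.cast_sub hr1]
    ring
  · exact h3.mono (by omega)

theorem step2 (hδD : ∀ a, δ (algebraMap Ω E a) = algebraMap Ω E (D a))
    {v : Place Ω E} {t : E} (ht : 0 < v.ord t) (hδ : δ t = 0) (N : ℕ) :
    (∀ g : E, Ge v 0 g → Ge v (-(N : ℤ)) (δ g)) → ∀ g : E, Ge v 0 g → Ge v 0 (δ g) := by
  induction N with
  | zero =>
    intro h g hg
    simpa using h g hg
  | succ N ih =>
    intro h
    apply ih
    intro g hg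
    have hs : v.ord (unif v) = 1 := ord_unif v
    set s := unif v with hsd
    have hs0 : s ≠ 0 := by
      intro h
      rw [h, v.ord_zero] at hs; omega
    have hds := ge_ds ht hδ hs h
    obtain ⟨c, hc⟩ := exists_const v hg
    have h1 : Ge v 0 ((g - algebraMap Ω E c) / s) := by
      apply Ge.of_mul' (h := s) (m := 1) hs0 hs
      rw [mul_div_cancel₀ _ hs0]
      simpa using hc
    have e : g = algebraMap Ω E c + s * ((g - algebraMap Ω E c) / s) := by
      field_simp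
      ring
    set g1 := (g - algebraMap Ω E c) / s with hg1
    rw [e, map_add, δ.leibniz, hδD, smul_eq_mul, smul_eq_mul]
    have h2 : Ge v 1 s := Or.inr hs.ge
    have h3 := h2.mul (h g1 h1)
    have h4 := h1.mul hds
    refine Ge.add ((Ge.const (P := v) (D c)).mono (by omega)) (Ge.add (h3.mono ?_) (h4.mono ?_))
    · push_cast; omega
    · push_cast; omega

end

theorem dera_ (h : StLB) : StDERa := by
  intro Ω E _ _ _ _ _ _ _ _ D δ hδD t v ht hδ n g hg
  have hc : CharZero Ω := charZero_of_injective_algebraMap (algebraMap ℂ Ω).injective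
  obtain ⟨N, hN⟩ := step1 h hδD ht hδ
  have h0 := step2 hδD ht hδ N hN
  by_cases hg0 : g = 0
  · rw [hg0, map_zero]
    exact Ge.zero
  have hgn := hg.resolve_left hg0
  refine Ge.mono hgn ?_
  have hs : v.ord (unif v) = 1 := ord_unif v
  set s := unif v with hsd
  have hs0 : s ≠ 0 := by
    intro h
    rw [h, v.ord_zero] at hs; omega
  have hds : Ge v 1 (δ s) := by
    simpa using ge_ds ht hδ hs (N := 0) (by simpa using h0)
  obtain ⟨k, hk⟩ : ∃ k, k = v.ord g := ⟨_, rfl⟩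
  obtain ⟨w, hw⟩ : ∃ w, w = g * s ^ (-k) := ⟨_, rfl⟩
  have hwo : v.ord w = 0 := by
    rw [hw, v.ord_mul hg0 (zpow_ne_zero _ hs0), v.ord_zpow, hs, ← hk]; ring
  have hgw : g = w * s ^ k := by
    rw [hw, mul_assoc, ← zpow_add₀ hs0]; simp
  have hwr : Ge v 0 w := Or.inr hwo.ge
  have hpow : ∀ m : ℤ, Ge v m (s ^ m) := fun m => Or.inr (by rw [v.ord_zpow, hs]; simp)
  rw [← hk, hgw, δ.leibniz, δ.leibniz_zpow]
  simp only [smul_eq_mul, zsmul_eq_mul]
  refine Ge.add ?_ ?_
  · have := hwr.mul ((Ge.intCast (P := v) k).mul ((hpow (k - 1)).mul hds))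
    exact this.mono (by omega)
  · have := (hpow k).mul (h0 w hwr)
    exact this.mono (by omega)

end Pool.Agent.N247.CV
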