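import Pool.Agent.N162.CV.Stm
import Pool.Agent.W602.GT.Der
import Pool.Agent.W603.LV.Can
import Pool.Agent.W619.PQ.Approx

/-!
# Project CV (helper162), file DER, parts b and c (helper247): derivations of function fields
-/

set_option autoImplicit false

open FF Polynomial Pool.Agent.W603.LV Pool.Agent.N162.CV

namespace Pool.Agent.N247.CV

section zero

variable {k Ω E : Type} [Field k] [CharZero k] [Field Ω] [Algebra k Ω] [Field E] [Algebra Ω E]
  [Algebra k E] [IsScalarTower k Ω E]

/-- the constants of a derivation with values in an extension -/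
def cst (d : Derivation k Ω E) : IntermediateField k Ω where
  carrier := {x | d x = 0}
  mul_mem' := by
    intro a b ha hb
    simp only [Set.mem_ofPred_eq] at ha hb ⊢
    rw [d.leibniz, ha, hb]; simp
  add_mem' := by
    intro a b ha hb
    simp only [Set.mem_ofPred_eq] at ha hb ⊢
    rw [map_add, ha, hb, add_zero]
  algebraMap_mem' := fun r => d.map_algebraMap r
  inv_mem' := by
    intro a ha
    simp only [Set.mem_ofPred_eq] at ha ⊢
    rw [d.leibniz_inv, ha]; simp

theorem d_aeval (d : Derivation k Ω E) (f : Ω) (p : (cst d)[X]) :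
    d (aeval f p) = algebraMap Ω E (aeval f (derivative p)) * d f := by
  induction p using Polynomial.induction_on' with
  | add p q hp hq =>
    rw [map_add, map_add, hp, hq, derivative_add, map_add, map_add, add_mul]
  | monomial n a =>
    have ha : d (a : Ω) = 0 := a.2
    rw [derivative_monomial, aeval_monomial, aeval_monomial, d.leibniz, d.leibniz_pow]
    have e1 : algebraMap (cst d) Ω a = (a : Ω) := rfl
    have e2 : algebraMap (cst d) Ω (a * n) = (a : Ω) * n := by
      rw [map_mul, map_natCast]; rfl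
    rw [e1, e2, ha, smul_zero, add_zero]
    simp only [Algebra.smul_def, map_mul, map_pow, map_natCast, eq_natCast]
    ring

theorem der0 (d : Derivation k Ω E) {ι : Type} (t : ι → Ω) (ht : IsTranscendenceBasis k t)
    (h : ∀ i, d (t i) = 0) : d = 0 := by
  have h1 : Algebra.IsAlgebraic (IntermediateField.adjoin k (Set.range t)) Ω :=
    ht.isAlgebraic_field
  have hle : IntermediateField.adjoin k (Set.range t) ≤ cst d := by
    rw [IntermediateField.adjoin_le_iff]
    rintro _ ⟨i, rfl⟩
    exact h i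
  have halg : Algebra.IsAlgebraic (cst d) Ω := by
    let _ : Algebra (IntermediateField.adjoin k (Set.range t)) (cst d) :=
      (IntermediateField.inclusion hle).toRingHom.toAlgebra
    have : IsScalarTower (IntermediateField.adjoin k (Set.range t)) (cst d) Ω :=
      IsScalarTower.of_algebraMap_eq fun x => rfl
    exact Algebra.IsAlgebraic.extendScalars
      (R := IntermediateField.adjoin k (Set.range t))
      (IntermediateField.inclusion hle).toRingHom.injective
  ext f
  have hint : IsIntegral (cst d) f := (halg.isAlgebraic f).isIntegral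
  have hchar : CharZero (cst d) := charZero_of_injective_algebraMap
    (algebraMap k (cst d)).injective
  have h1 : d (aeval f (minpoly (cst d) f)) = 0 := by
    rw [minpoly.aeval, map_zero]
  rw [d_aeval] at h1
  have h2 : aeval f (derivative (minpoly (cst d) f)) ≠ 0 :=
    (minpoly.irreducible hint).separable.aeval_derivative_ne_zero (minpoly.aeval _ _)
  exact (mul_eq_zero.mp h1).resolve_left (fun h3 => h2 ((map_eq_zero _).1 h3))

end zero

theorem derc_ : StDERc := by
  intro Ω E _ _ _ _ _ _ _ _ x hx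
  have hc : CharZero Ω := charZero_of_injective_algebraMap (algebraMap ℂ Ω).injective
  constructor
  · obtain ⟨δ, hδ⟩ := Pool.Agent.W602.GT.exists_der (fun _ : Unit => x) (IsFF.basis hx)
      (fun _ => 1)
    exact ⟨δ, hδ ()⟩
  · intro D
    obtain ⟨s, hs⟩ := exists_isTranscendenceBasis ℂ Ω
    have hb := hs.sumElim_comp (IsFF.basis (K := E) hx)
    obtain ⟨δ, hδ⟩ := Pool.Agent.W602.GT.exists_der _ hb
      (Sum.elim (fun _ => 0) (fun i : s => algebraMap Ω E (D (i : Ω))))
    refine ⟨δ, ?_, hδ (Sum.inl ())⟩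
    set d : Derivation ℂ Ω E := δ.compAlgebraMap Ω - (Algebra.linearMap Ω E).compDer D with hd
    have hd0 : d = 0 := by
      refine der0 d ((↑) : s → Ω) hs ?_
      intro i
      have h1 := hδ (Sum.inr i)
      rw [hd, Derivation.sub_apply]
      exact sub_eq_zero.2 h1
    intro a
    have h1 : d a = 0 := by rw [hd0]; rfl
    rw [hd, Derivation.sub_apply] at h1
    exact sub_eq_zero.1 h1

section logder

variable {Ω E : Type} [Field Ω] [CharZero Ω] [Field E] [Algebra Ω E] [IsAlgClosed Ω] [IsFF Ω E]

/-- logarithmic derivatives with respect to a local parameter -/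
theorem logder (v : Place Ω E) {s : E} (hs : v.ord s = 1) (D : Derivation Ω E E) (hD : D s = 1)
    {g : E} (hg : g ≠ 0) : Ge v 1 (s * D g / g - (v.ord g : E)) := by
  have hs0 : s ≠ 0 := by
    rintro rfl
    rw [v.ord_zero] at hs; omega
  obtain ⟨k, hk⟩ : ∃ k, k = v.ord g := ⟨_, rfl⟩
  obtain ⟨w, hw⟩ : ∃ w, w = g * s ^ (-k) := ⟨_, rfl⟩
  have hw0 : w ≠ 0 := by rw [hw]; exact mul_ne_zero hg (zpow_ne_zero _ hs0)
  have hwo : v.ord w = 0 := by
    rw [hw, v.ord_mul hg (zpow_ne_zero _ hs0), v.ord_zpow, hs, ← hk]; ring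
  have hgw : g = w * s ^ k := by
    rw [hw, mul_assoc, ← zpow_add₀ hs0]; simp
  have hDw : Ge v 0 (D w) := der_reg v hs D hD (Or.inr hwo.ge)
  have e : s * D g / g - (v.ord g : E) = s * (D w * w⁻¹) := by
    rw [← hk]
    have h1 : D (s ^ k) = (k : E) * s ^ (k - 1) := by
      rw [Derivation.leibniz_zpow, hD]
      simp only [smul_eq_mul, zsmul_eq_mul, mul_one]
    have h2 : s ^ k = s ^ (k - 1) * s := by
      rw [← zpow_add_one₀ hs0]; congr 1; ring
    have h3 : s ^ k ≠ 0 := zpow_ne_zero _ hs0
    have h4 : s ^ (k - 1) ≠ 0 := zpow_ne_zero _ hs0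
    rw [hgw, D.leibniz, h1, smul_eq_mul, smul_eq_mul, h2]
    field_simp
    ring
  rw [e]
  have h5 : Ge v 0 w⁻¹ := Or.inr (by rw [v.ord_inv, hwo]; simp)
  have h6 : Ge v 1 s := Or.inr hs.ge
  simpa using h6.mul (hDw.mul h5)

end logder

theorem derb_ : StDERb := by
  intro Ω E _ _ _ _ _ _ δ t v ht hδ g hg
  have ht0 : t ≠ 0 := by
    rintro rfl
    rw [v.ord_zero] at ht; omega
  have hδ0 : δ ≠ 0 := by
    rintro rfl
    exact zero_ne_one (α := E) hδ
  set s := unif v with hs
  have hso : v.ord s = 1 := ord_unif v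
  have hδs : δ s ≠ 0 := der_pi_ne_zero hδ0 v hso
  set D : Derivation Ω E E := (δ s)⁻¹ • δ with hD
  have hDa : ∀ f, D f = (δ s)⁻¹ * δ f := fun f => rfl
  have hDs : D s = 1 := by rw [hDa, inv_mul_cancel₀ hδs]
  have h1 := logder v hso D hDs hg
  have h2 := logder v hso D hDs ht0
  set ε := s * D t / t - (v.ord t : E) with hε
  set ε' := s * D g / g - (v.ord g : E) with hε'
  have hDt : D t = (δ s)⁻¹ := by rw [hDa, hδ, mul_one]
  have hr0 : (v.ord t : E) ≠ 0 := by
    intro h
    have h1 : algebraMap Ω E (v.ord t : Ω) = 0 := by rw [map_intCast]; exact h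
    have h2 := (map_eq_zero (algebraMap Ω E)).1 h1
    have h3 : v.ord t = 0 := by exact_mod_cast h2
    omega
  have hro : v.ord (v.ord t : E) = 0 := by
    have h1 : algebraMap Ω E (v.ord t : Ω) = (v.ord t : E) := by rw [map_intCast]
    rw [← h1]
    apply v.ord_const
    intro h
    have h3 : v.ord t = 0 := by exact_mod_cast h
    omega
  have hre : (v.ord t : E) + ε ≠ 0 ∧ v.ord ((v.ord t : E) + ε) = 0 := by
    rcases h2 with h2 | h2
    · rw [h2, add_zero]
      exact ⟨hr0, hro⟩
    · have hε0 : ε ≠ 0 := by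
        intro h
        rw [h, v.ord_zero] at h2
        omega
      have := v.ord_add_eq hr0 hε0 (by omega)
      exact ⟨this.1, this.2.trans hro⟩
  have hs0 : s ≠ 0 := by
    intro h
    rw [h, v.ord_zero] at hso; omega
  have e : (v.ord t : E) * (t * δ g / g) - (v.ord g : E) =
      ((v.ord t : E) * ε' - (v.ord g : E) * ε) * ((v.ord t : E) + ε)⁻¹ := by
    have e1 : (v.ord t : E) + ε = s * D t / t := by rw [hε]; ring
    have e2 : t * δ g / g = (s * D g / g) * (s * D t / t)⁻¹ := by
      rw [hDa g, hDt]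
      field_simp
    have e3 : s * D g / g = (v.ord g : E) + ε' := by rw [hε']; ring
    rw [e2, ← e1, e3]
    field_simp [hre.1]
    ring
  rw [e]
  have h3 : Ge v 1 ((v.ord t : E) * ε' - (v.ord g : E) * ε) := by
    refine Ge.sub ?_ ?_
    · simpa using (Ge.intCast (P := v) (v.ord t)).mul h1
    · simpa using (Ge.intCast (P := v) (v.ord g)).mul h2
  have h4 : Ge v 0 ((v.ord t : E) + ε)⁻¹ := Or.inr (by rw [v.ord_inv, hre.2]; simp)
  simpa using h3.mul h4

end Pool.Agent.N247.CV
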